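import Pool.Agent.H378Z.Turan2

set_option autoImplicit false

namespace Pool.Agent.Results.MP_ea5d3c_co.ALogBound

open Pool.Agent.H378Z.Turan

/-- The rescaled Turan densities grow at most logarithmically. -/
theorem result (r : ℕ) (hr : 2 ≤ r) :
    rescaled (r ^ 2 + r / 2 - 1) r ≤ 300 * Real.log r ∧ tStar r ≤ 300 * Real.log r :=
  ⟨rescaled_le r hr, tStar_le r hr⟩

end Pool.Agent.Results.MP_ea5d3c_co.ALogBound
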